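import Pool.Agent.VTP.StmtsW

/-!
# Squad VTP, row WR2 (helper67): the second move
-/

set_option autoImplicit false

namespace Pool.Agent.VTP.H67

open Finset Pool.Agent.ZOL Pool.Agent.VTP

theorem fstL_eq (w : Word) (d : ℕ) : fstL w d = ((sub {d} w).head?).getD (d, true, true) := by
  unfold fstL sub
  rw [List.head?_filter]
  simp only [Finset.mem_singleton]

theorem fstL_congr {w w' : Word} {d : ℕ} (h : sub {d} w = sub {d} w') : fstL w d = fstL w' d := by
  rw [fstL_eq, fstL_eq, h]

theorem il_map {U V Z : List ℕ} {a b d : ℕ} (hd : d ≠ a) (hU : a ∉ U) (hV : a ∉ V) (hZ : a ∉ Z)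
    (h : U ++ [a] ++ V ++ [a] ++ Z = [a, d, a, d] ∨ U ++ [a] ++ V ++ [a] ++ Z = [d, a, d, a]) :
    U ++ [b] ++ V ++ [b] ++ Z = [b, d, b, d] ∨ U ++ [b] ++ V ++ [b] ++ Z = [d, b, d, b] := by
  obtain ⟨τ, hτ⟩ : ∃ τ : ℕ → ℕ, ∀ x, τ x = if x = a then b else x := ⟨_, fun _ => rfl⟩
  have hτa : τ a = b := by rw [hτ, if_pos rfl]
  have hτd : τ d = d := by rw [hτ, if_neg hd]
  have hid : ∀ L : List ℕ, a ∉ L → L.map τ = L := by
    intro L hL
    nth_rewrite 2 [← List.map_id L]
    apply List.map_congr_left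
    intro x hx
    have hxa : x ≠ a := by
      intro he
      rw [he] at hx
      exact hL hx
    rw [hτ, if_neg hxa, id]
  rcases h with h | h
  · left
    have h1 := congrArg (List.map τ) h
    simp only [List.map_append, List.map_cons, List.map_nil, hτa, hτd, hid U hU, hid V hV,
      hid Z hZ] at h1
    exact h1
  · right
    have h1 := congrArg (List.map τ) h
    simp only [List.map_append, List.map_cons, List.map_nil, hτa, hτd, hid U hU, hid V hV,
      hid Z hZ] at h1
    exact h1

theorem wr2_aux (hC : PcgStmt) (h2 : Pr2Stmt) (hQ : QexStmt) (hB : WbaStmt) (u v z s : Word)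
    (a b : ℕ) (r o : Bool)
    (hs : s = [(a, !r, !o), (b, r, !o)] ∨ s = [(b, r, !o), (a, !r, !o)])
    (hG : IsGauss (u ++ [(a, r, o), (b, !r, o)] ++ v ++ s ++ z)) :
    PW (u ++ [(a, r, o), (b, !r, o)] ++ v ++ s ++ z) = PW (u ++ v ++ z) := by
  obtain ⟨w, hw⟩ : ∃ w, w = u ++ [(a, r, o), (b, !r, o)] ++ v ++ s ++ z := ⟨_, rfl⟩
  rw [← hw] at hG ⊢
  have hls : labels s = {a, b} := by
    rcases hs with hs | hs <;> rw [hs] <;> ext x <;> simp [labels] <;> tauto
  have haw : a ∈ labels w := by
    rw [hw]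
    simp [labels]
  have hbw : b ∈ labels w := by
    rw [hw]
    simp [labels]
  have hab : a ≠ b := by
    rintro rfl
    obtain ⟨l, hl⟩ := hG a haw
    have h3 := congrArg List.length hl
    rw [hw] at h3
    rcases hs with hs | hs <;> rw [hs] at h3 <;>
      simp [sub_append, sub_cons] at h3 <;> omega
  have hps : ∀ S : Finset ℕ, a ∉ S → b ∉ S → sub S [(a, r, o), (b, !r, o)] = [] ∧ sub S s = [] := by
    intro S ha hb
    refine ⟨by simp [sub_cons, ha, hb], ?_⟩
    rcases hs with hs | hs <;> rw [hs] <;> simp [sub_cons, ha, hb]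
  have hpa : ∀ S : Finset ℕ, a ∈ S → b ∉ S →
      sub S [(a, r, o), (b, !r, o)] = [(a, r, o)] ∧ sub S s = [(a, !r, !o)] := by
    intro S ha hb
    refine ⟨by simp [sub_cons, ha, hb], ?_⟩
    rcases hs with hs | hs <;> rw [hs] <;> simp [sub_cons, ha, hb]
  have hpb : ∀ S : Finset ℕ, a ∉ S → b ∈ S →
      sub S [(a, r, o), (b, !r, o)] = [(b, !r, o)] ∧ sub S s = [(b, r, !o)] := by
    intro S ha hb
    refine ⟨by simp [sub_cons, ha, hb], ?_⟩
    rcases hs with hs | hs <;> rw [hs] <;> simp [sub_cons, ha, hb]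
  have hsw : ∀ S : Finset ℕ, sub S w = sub S u ++ sub S [(a, r, o), (b, !r, o)] ++ sub S v ++
      sub S s ++ sub S z := by
    intro S
    rw [hw, sub_append, sub_append, sub_append, sub_append]
  have hnil : ∀ (x : ℕ) (L : Word), sub {x} L = [] → x ∉ labels L := by
    intro x L h hx
    obtain ⟨l, hl, hlx⟩ := mem_labels.1 hx
    have h3 : l ∈ sub {x} L := mem_sub.2 ⟨hl, by rw [hlx]; exact Finset.mem_singleton_self x⟩
    rw [h] at h3
    exact List.not_mem_nil h3
  have hba : b ∉ ({a} : Finset ℕ) := by simpa using hab.symm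
  have hab' : a ∉ ({b} : Finset ℕ) := by simpa using hab
  have hsa : sub {a} u = [] ∧ sub {a} v = [] ∧ sub {a} z = [] := by
    obtain ⟨l, hl⟩ := hG a haw
    rw [hsw, (hpa {a} (Finset.mem_singleton_self a) hba).1,
      (hpa {a} (Finset.mem_singleton_self a) hba).2] at hl
    have h3 := congrArg List.length hl
    simp only [List.length_append, List.length_cons, List.length_nil] at h3
    refine ⟨List.length_eq_zero_iff.1 (by omega), List.length_eq_zero_iff.1 (by omega),
      List.length_eq_zero_iff.1 (by omega)⟩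
  have hsb : sub {b} u = [] ∧ sub {b} v = [] ∧ sub {b} z = [] := by
    obtain ⟨l, hl⟩ := hG b hbw
    rw [hsw, (hpb {b} hab' (Finset.mem_singleton_self b)).1,
      (hpb {b} hab' (Finset.mem_singleton_self b)).2] at hl
    have h3 := congrArg List.length hl
    simp only [List.length_append, List.length_cons, List.length_nil] at h3
    refine ⟨List.length_eq_zero_iff.1 (by omega), List.length_eq_zero_iff.1 (by omega),
      List.length_eq_zero_iff.1 (by omega)⟩
  have hau := hnil a u hsa.1
  have hav := hnil a v hsa.2.1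
  have haz := hnil a z hsa.2.2
  have hbu := hnil b u hsb.1
  have hbv := hnil b v hsb.2.1
  have hbz := hnil b z hsb.2.2
  obtain ⟨V, hV⟩ : ∃ V, V = labels (u ++ v ++ z) := ⟨_, rfl⟩
  have hVe : ∀ x, x ∈ V ↔ x ∈ labels u ∨ x ∈ labels v ∨ x ∈ labels z := by
    intro x
    rw [hV, labels_append, labels_append, Finset.mem_union, Finset.mem_union, or_assoc]
  have haV : a ∉ V := by
    rw [hVe]
    tauto
  have hbV : b ∉ V := by
    rw [hVe]
    tauto
  have hlw : labels w = insert a (insert b V) := by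
    ext x
    rw [hw, labels_append, labels_append, labels_append, labels_append, hls]
    simp only [Finset.mem_union, Finset.mem_insert, Finset.mem_singleton, hVe]
    have h3 : x ∈ labels [(a, r, o), (b, !r, o)] ↔ x = a ∨ x = b := by simp [labels]
    rw [h3]
    tauto
  -- the other crossings
  have hsub : ∀ S : Finset ℕ, a ∉ S → b ∉ S → sub S w = sub S (u ++ v ++ z) := by
    intro S ha hb
    rw [hsw, (hps S ha hb).1, (hps S ha hb).2, sub_append, sub_append]
    simp
  have hVa : ∀ d ∈ V, d ≠ a := fun d hd h => haV (h ▸ hd)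
  have hVb : ∀ d ∈ V, d ≠ b := fun d hd h => hbV (h ▸ hd)
  have hfst : ∀ d ∈ V, fstL w d = fstL (u ++ v ++ z) d := by
    intro d hd
    apply fstL_congr
    apply hsub
    · simpa using (hVa d hd).symm
    · simpa using (hVb d hd).symm
  have hil : ∀ c ∈ V, ∀ d ∈ V, (il w c d ↔ il (u ++ v ++ z) c d) := by
    intro c hc d hd
    have h3 : sub {c, d} w = sub {c, d} (u ++ v ++ z) := by
      apply hsub
      · simp [(hVa c hc).symm, (hVa d hd).symm]
      · simp [(hVb c hc).symm, (hVb d hd).symm]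
    unfold il
    rw [h3]
  -- the two crossings
  have hda : sub {a} w = [(a, r, o), (a, !r, !o)] := by
    rw [hsw, (hpa {a} (Finset.mem_singleton_self a) hba).1,
      (hpa {a} (Finset.mem_singleton_self a) hba).2, hsa.1, hsa.2.1, hsa.2.2]
    rfl
  have hdb : sub {b} w = [(b, !r, o), (b, r, !o)] := by
    rw [hsw, (hpb {b} hab' (Finset.mem_singleton_self b)).1,
      (hpb {b} hab' (Finset.mem_singleton_self b)).2, hsb.1, hsb.2.1, hsb.2.2]
    rfl
  have hfa : fstL w a = (a, r, o) := by
    rw [fstL_eq, hda]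
    rfl
  have hfb : fstL w b = (b, !r, o) := by
    rw [fstL_eq, hdb]
    rfl
  have hiab : ∀ d ∈ V, (il w a d ↔ il w b d) := by
    intro d hd
    have hda' := hVa d hd
    have hdb' := hVb d hd
    have hU : ∀ L : Word, a ∉ labels L → b ∉ labels L → sub {a, d} L = sub {d} L ∧
        sub {b, d} L = sub {d} L := by
      intro L ha hb
      constructor
      · apply sub_congr
        ext x
        simp only [Finset.mem_inter, Finset.mem_insert, Finset.mem_singleton]
        constructor
        · rintro ⟨h3 | h3, h4⟩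
          · exact absurd (h3 ▸ h4) ha
          · exact ⟨h3, h4⟩
        · rintro ⟨h3, h4⟩
          exact ⟨Or.inr h3, h4⟩
      · apply sub_congr
        ext x
        simp only [Finset.mem_inter, Finset.mem_insert, Finset.mem_singleton]
        constructor
        · rintro ⟨h3 | h3, h4⟩
          · exact absurd (h3 ▸ h4) hb
          · exact ⟨h3, h4⟩
        · rintro ⟨h3, h4⟩
          exact ⟨Or.inr h3, h4⟩
    have hN : ∀ (L : Word) (x : ℕ), x ∉ labels L → x ∉ (sub {d} L).map Prod.fst := by
      intro L x hx hm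
      obtain ⟨l, hl, hlx⟩ := List.mem_map.1 hm
      exact hx (hlx ▸ mem_labels_of_mem (mem_sub.1 hl).1)
    have ea : (sub {a, d} w).map Prod.fst = (sub {d} u).map Prod.fst ++ [a] ++
        (sub {d} v).map Prod.fst ++ [a] ++ (sub {d} z).map Prod.fst := by
      rw [hsw, (hpa {a, d} (by simp) (by simp [hab.symm, hdb'.symm])).1,
        (hpa {a, d} (by simp) (by simp [hab.symm, hdb'.symm])).2, (hU u hau hbu).1,
        (hU v hav hbv).1, (hU z haz hbz).1]
      simp only [List.map_append, List.map_cons, List.map_nil]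
    have eb : (sub {b, d} w).map Prod.fst = (sub {d} u).map Prod.fst ++ [b] ++
        (sub {d} v).map Prod.fst ++ [b] ++ (sub {d} z).map Prod.fst := by
      rw [hsw, (hpb {b, d} (by simp [hab, hda'.symm]) (by simp)).1,
        (hpb {b, d} (by simp [hab, hda'.symm]) (by simp)).2, (hU u hau hbu).2,
        (hU v hav hbv).2, (hU z haz hbz).2]
      simp only [List.map_append, List.map_cons, List.map_nil]
    unfold il
    rw [ea, eb]
    exact ⟨il_map hda' (hN u a hau) (hN v a hav) (hN z a haz),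
      il_map hdb' (hN u b hbu) (hN v b hbv) (hN z b hbz)⟩
  -- conclusion
  unfold PW
  rw [hlw, ← hV]
  rw [h2 (PowerSeries ℤ) qq hQ.1 V (sg w) (sn w) (il w) a b haV hbV hab (hB.1 w)
    (hB.2.1 w hG) hiab ?_ ?_ ?_ ?_]
  · refine (hC V (sg w) (sg (u ++ v ++ z)) (sn w) (sn (u ++ v ++ z)) (il w) (il (u ++ v ++ z))
      ?_ ?_ hil).1 (PowerSeries ℤ) qq
    · intro d hd
      unfold sg
      rw [hfst d hd]
    · intro d hd
      unfold sn
      rw [hfst d hd]
  · unfold sg eps
    rw [hfa, hfb]
    cases r <;> simp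
  · unfold sn sgn
    rw [hfa, hfb]
    cases r <;> cases o <;> simp [eps]
  · unfold sg sn sgn eps
    rw [hfa]
    cases r <;> cases o <;> simp
  · unfold sg eps
    rw [hfa]
    cases r <;> simp

theorem wr2 (hC : PcgStmt) (h2 : Pr2Stmt) (hQ : QexStmt) (hB : WbaStmt) : Wr2Stmt :=
  ⟨fun u v z a b r o hG => wr2_aux hC h2 hQ hB u v z _ a b r o (Or.inl rfl) hG,
    fun u v z a b r o hG => wr2_aux hC h2 hQ hB u v z _ a b r o (Or.inr rfl) hG⟩

end Pool.Agent.VTP.H67
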